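import Pool.Agent.W47.TM.Defs

/-!
TM-FACT: from irreducible to arbitrary integer polynomials.
-/

set_option autoImplicit false

namespace Pool.Agent.W991.TM.Fact

open Polynomial Pool.Agent.W47.TM

/-- the Mahler measure of an integer polynomial -/
noncomputable def M (P : ℤ[X]) : ℝ := (P.map (Int.castRingHom ℂ)).mahlerMeasure

lemma one_le_M {P : ℤ[X]} (h : P ≠ 0) : 1 ≤ M P := Polynomial.one_le_mahlerMeasure_of_ne_zero h

lemma M_mul (P Q : ℤ[X]) : M (P * Q) = M P * M Q := by
  unfold M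
  rw [Polynomial.map_mul, mahlerMeasure_mul]

lemma coeff_le (P : ℤ[X]) (i : ℕ) : |(P.coeff i : ℝ)| ≤ 2 ^ P.natDegree * M P := by
  have h := norm_coeff_le_choose_mul_mahlerMeasure i (P.map (Int.castRingHom ℂ))
  have h1 : ‖(P.map (Int.castRingHom ℂ)).coeff i‖ = |(P.coeff i : ℝ)| := by
    rw [coeff_map]
    simp
  rw [h1] at h
  refine h.trans ?_
  have h2 : (P.map (Int.castRingHom ℂ)).natDegree ≤ P.natDegree := natDegree_map_le
  have h3 : ((P.map (Int.castRingHom ℂ)).natDegree.choose i : ℝ) ≤ 2 ^ P.natDegree := by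
    calc ((P.map (Int.castRingHom ℂ)).natDegree.choose i : ℝ)
        ≤ ((2 ^ (P.map (Int.castRingHom ℂ)).natDegree : ℕ) : ℝ) := by
          exact_mod_cast Nat.choose_le_two_pow _ _
      _ = 2 ^ (P.map (Int.castRingHom ℂ)).natDegree := by push_cast; rfl
      _ ≤ 2 ^ P.natDegree := pow_le_pow_right₀ (by norm_num) h2
  exact mul_le_mul_of_nonneg_right h3 (mahlerMeasure_nonneg _)

lemma M_le (P : ℤ[X]) (d : ℕ) (hd : P.natDegree ≤ d) (H : ℝ)
    (hH : ∀ i, |(P.coeff i : ℝ)| ≤ H) : M P ≤ (d + 1) * H := by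
  have h := mahlerMeasure_le_sum_norm_coeff (P.map (Int.castRingHom ℂ))
  refine h.trans ?_
  rw [sum_over_range' _ (fun n => norm_zero) (d + 1)
    (lt_of_le_of_lt natDegree_map_le (Nat.lt_succ_of_le hd))]
  have : ∀ i ∈ Finset.range (d + 1), ‖(P.map (Int.castRingHom ℂ)).coeff i‖ ≤ H := by
    intro i _
    have h1 : ‖(P.map (Int.castRingHom ℂ)).coeff i‖ = |(P.coeff i : ℝ)| := by
      rw [coeff_map]
      simp
    rw [h1]
    exact hH i
  refine (Finset.sum_le_card_nsmul _ _ _ this).trans ?_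
  rw [Finset.card_range, nsmul_eq_mul]
  push_cast
  exact le_rfl

lemma const_case (κ x : ℝ) (hκ : 0 ≤ κ) (P : ℤ[X]) (hP : P ≠ 0) (h0 : P.natDegree = 0) :
    1 ≤ M P ^ κ * |aeval x P| := by
  obtain ⟨a, ha⟩ := natDegree_eq_zero.1 h0
  have ha0 : a ≠ 0 := by
    rintro rfl
    exact hP (by rw [← ha]; simp)
  have h1 : 1 ≤ M P ^ κ := Real.one_le_rpow (one_le_M hP) hκ
  have h2 : (1 : ℝ) ≤ |aeval x P| := by
    rw [← ha]
    have : aeval x (C a : ℤ[X]) = (a : ℝ) := by simp
    rw [this]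
    have := Int.one_le_abs ha0
    exact_mod_cast this
  nlinarith

theorem fact : S_FACT := by
  intro d κ c x hκ hc hirr
  obtain ⟨c₁, hc₁⟩ : ∃ c₁ : ℝ, c₁ = min 1 (c / (2 ^ d : ℝ) ^ κ) := ⟨_, rfl⟩
  have hc₁0 : 0 < c₁ := by
    rw [hc₁]
    exact lt_min one_pos (by positivity)
  have hc₁1 : c₁ ≤ 1 := by rw [hc₁]; exact min_le_left _ _
  have key : ∀ P : ℤ[X], P ≠ 0 → P.natDegree ≤ d →
      c₁ ^ P.natDegree ≤ M P ^ κ * |aeval x P| := by
    intro P
    refine UniqueFactorizationMonoid.induction_on_prime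
      (P := fun P : ℤ[X] => P ≠ 0 → P.natDegree ≤ d →
        c₁ ^ P.natDegree ≤ M P ^ κ * |aeval x P|) P ?_ ?_ ?_
    · intro h
      exact absurd rfl h
    · intro u hu hu0 _
      have h0 : u.natDegree = 0 := natDegree_eq_zero_of_isUnit hu
      rw [h0, pow_zero]
      exact const_case κ x hκ u hu0 h0
    · intro a p ha hp ih hpa hd
      have hp0 : p ≠ 0 := hp.ne_zero
      have hdeg : (p * a).natDegree = p.natDegree + a.natDegree := natDegree_mul hp0 ha
      have h1 := ih ha (by omega)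
      have h2 : c₁ ^ p.natDegree ≤ M p ^ κ * |aeval x p| := by
        rcases Nat.eq_zero_or_pos p.natDegree with h0 | h0
        · rw [h0, pow_zero]
          exact const_case κ x hκ p hp0 h0
        · have hM := one_le_M hp0
          have hle : p.natDegree ≤ d := by omega
          have h3 := hirr p hp.irreducible hle (2 ^ d * M p) (by
            have : (1 : ℝ) ≤ 2 ^ d := one_le_pow₀ (by norm_num)
            nlinarith) (by
            intro i
            refine (coeff_le p i).trans ?_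
            have : (2 : ℝ) ^ p.natDegree ≤ 2 ^ d := pow_le_pow_right₀ (by norm_num) hle
            nlinarith)
          rw [Real.mul_rpow (by positivity) (by linarith)] at h3
          have h4 : c / (2 ^ d : ℝ) ^ κ ≤ M p ^ κ * |aeval x p| := by
            rw [div_le_iff₀ (by positivity)]
            linarith
          calc c₁ ^ p.natDegree ≤ c₁ ^ 1 := pow_le_pow_of_le_one hc₁0.le hc₁1 h0
            _ = c₁ := pow_one _
            _ ≤ c / (2 ^ d : ℝ) ^ κ := by rw [hc₁]; exact min_le_right _ _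
            _ ≤ _ := h4
      rw [hdeg, pow_add, M_mul, map_mul, abs_mul, Real.mul_rpow
        (zero_le_one.trans (one_le_M hp0)) (zero_le_one.trans (one_le_M ha))]
      calc c₁ ^ p.natDegree * c₁ ^ a.natDegree
          ≤ (M p ^ κ * |aeval x p|) * (M a ^ κ * |aeval x a|) :=
            mul_le_mul h2 h1 (by positivity) (h2.trans' (by positivity))
        _ = _ := by ring
  refine ⟨c₁ ^ d / ((d : ℝ) + 1) ^ κ, by positivity, ?_⟩
  intro P hP hd H hH hPH
  have h1 := key P hP hd
  have h2 : c₁ ^ d ≤ c₁ ^ P.natDegree := pow_le_pow_of_le_one hc₁0.le hc₁1 hd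
  have h3 : M P ^ κ ≤ (((d : ℝ) + 1) * H) ^ κ :=
    Real.rpow_le_rpow (zero_le_one.trans (one_le_M hP)) (M_le P d hd H hPH) hκ
  rw [Real.mul_rpow (by positivity) (by linarith)] at h3
  rw [div_le_iff₀ (by positivity)]
  have h4 : M P ^ κ * |aeval x P| ≤ ((d : ℝ) + 1) ^ κ * H ^ κ * |aeval x P| :=
    mul_le_mul_of_nonneg_right h3 (abs_nonneg _)
  linarith

end Pool.Agent.W991.TM.Fact
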